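import Pool.Agent.Results.MP_44a246_nt.CoversOfProjectiveSpace
import Pool.Agent.R479.DB.Lim

set_option autoImplicit false

/-! The exceptional sets of the truncated Vojta inequality for all covers: there are only countably
many of them, and each of them has a power-saving number of points. -/

namespace Pool.Agent.K1H84.TV

open MvPolynomial NumberField IsDedekindDomain Filter
open Pool.Agent.Results.MP_44a246_nt.CoversOfProjectiveSpace

/-- the height of a point -/
def ht {n : ℕ} (x : Fin (n + 1) → ℤ) : ℕ := Finset.univ.sup fun i => (x i).natAbs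

/-- The integral vectors `x` over which there is a point of degree `N` violating the inequality. -/
def Violators {n q t : ℕ} {A : Type} [CommRing A] [Algebra (MvPolynomial (Fin (n + 1)) ℚ) A]
    (N : ℕ) (T : Finset ℕ) (F : Fin q → MvPolynomial (Fin (n + 1)) ℤ) (u : Fin q → ℕ)
    (y : ∀ j, Fin (u j) → A) (G : MvPolynomial (Fin (n + 1)) ℤ) (d : ℕ) (S : Finset ℕ)
    (F' G' : Fin t → MvPolynomial (Fin (n + 1)) ℤ) (k' e' : Fin t → ℕ) (Λ κ : ℝ) :
    Set (Fin (n + 1) → ℤ) :=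
  {x | ∃ (K : Type) (_ : Field K) (_ : NumberField K) (φ : A →+* K),
    Function.Surjective φ ∧ Module.finrank ℚ K = N ∧
    (∀ i, φ (algebraMap (MvPolynomial (Fin (n + 1)) ℚ) A (X i)) = x i) ∧
    truncated T F u y x K φ + logDisc K < κ * Real.log (ht x) + proximity G d S x +
      Λ * ∑ l, idealHeight (F' l) (G' l) (k' l) (e' l) x}

/-- the polynomial rings over `ℚ[x_0, …, x_n]` -/
abbrev Pr (n r : ℕ) : Type := MvPolynomial (Fin r) (MvPolynomial (Fin (n + 1)) ℚ)

/-- the same set in terms of generators and relations -/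
def Coded {n q t r : ℕ} (gens : Finset (Pr n r))
    (N : ℕ) (T : Finset ℕ) (F : Fin q → MvPolynomial (Fin (n + 1)) ℤ) (u : Fin q → ℕ)
    (y : ∀ j, Fin (u j) → Pr n r) (G : MvPolynomial (Fin (n + 1)) ℤ) (d : ℕ) (S : Finset ℕ)
    (F' G' : Fin t → MvPolynomial (Fin (n + 1)) ℤ) (k' e' : Fin t → ℕ) (Λ κ : ℝ) :
    Set (Fin (n + 1) → ℤ) :=
  {x | ∃ (K : Type) (_ : Field K) (_ : NumberField K) (ψ : Pr n r →+* K),
    (∀ g ∈ gens, ψ g = 0) ∧ Function.Surjective ψ ∧ Module.finrank ℚ K = N ∧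
    (∀ i, ψ (algebraMap (MvPolynomial (Fin (n + 1)) ℚ) (Pr n r) (X i)) = x i) ∧
    truncated T F u y x K ψ + logDisc K < κ * Real.log (ht x) + proximity G d S x +
      Λ * ∑ l, idealHeight (F' l) (G' l) (k' l) (e' l) x}

theorem exists_coded {n q t : ℕ} {A : Type} [CommRing A]
    [Algebra (MvPolynomial (Fin (n + 1)) ℚ) A] [Module.Finite (MvPolynomial (Fin (n + 1)) ℚ) A]
    (N : ℕ) (T : Finset ℕ) (F : Fin q → MvPolynomial (Fin (n + 1)) ℤ) (u : Fin q → ℕ)
    (y : ∀ j, Fin (u j) → A) (G : MvPolynomial (Fin (n + 1)) ℤ) (d : ℕ) (S : Finset ℕ)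
    (F' G' : Fin t → MvPolynomial (Fin (n + 1)) ℤ) (k' e' : Fin t → ℕ) (Λ κ : ℝ) :
    ∃ (r : ℕ) (gens : Finset (Pr n r)) (y' : ∀ j, Fin (u j) → Pr n r),
      Violators N T F u y G d S F' G' k' e' Λ κ = Coded gens N T F u y' G d S F' G' k' e' Λ κ := by
  classical
  have hft : Algebra.FiniteType (MvPolynomial (Fin (n + 1)) ℚ) A := inferInstance
  obtain ⟨r, π, hπ⟩ := Algebra.FiniteType.iff_quotient_mvPolynomial''.1 hft
  have hnoeth : IsNoetherianRing (Pr n r) := inferInstance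
  obtain ⟨gens, hgens⟩ := (isNoetherianRing_iff_ideal_fg (Pr n r)).1 hnoeth (RingHom.ker π.toRingHom)
  choose lift hlift using hπ
  refine ⟨r, gens, fun j i => lift (y j i), ?_⟩
  have hzero : ∀ g ∈ gens, π g = 0 := by
    intro g hg
    have h1 : g ∈ RingHom.ker π.toRingHom := by
      rw [← hgens]
      exact Ideal.subset_span hg
    exact h1
  ext x
  constructor
  · rintro ⟨K, hK, hNK, φ, h1, h2, h3, h4⟩
    refine ⟨K, hK, hNK, φ.comp π.toRingHom, ?_, ?_, h2, ?_, ?_⟩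
    · intro g hg
      show φ (π g) = 0
      rw [hzero g hg, map_zero]
    · exact h1.comp (fun a => ⟨lift a, hlift a⟩)
    · intro i
      show φ (π (algebraMap _ _ (X i))) = x i
      rw [AlgHom.commutes]
      exact h3 i
    · have h5 : truncated T F u (fun j i => lift (y j i)) x K (φ.comp π.toRingHom) =
          truncated T F u y x K φ := by
        unfold truncated
        have h6 : ∀ j i, (φ.comp π.toRingHom) (lift (y j i)) = φ (y j i) := by
          intro j i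
          show φ (π (lift (y j i))) = φ (y j i)
          rw [hlift]
        simp only [h6]
      rw [h5]
      exact h4
  · rintro ⟨K, hK, hNK, ψ, h0, h1, h2, h3, h4⟩
    have hker : RingHom.ker π.toRingHom ≤ RingHom.ker ψ := by
      rw [← hgens, Ideal.span_le]
      intro g hg
      exact h0 g hg
    have hsurj : Function.Surjective π.toRingHom := fun a => ⟨lift a, hlift a⟩
    set φ : A →+* K := RingHom.liftOfSurjective π.toRingHom hsurj ⟨ψ, hker⟩ with hφ
    have hφπ : ∀ p, φ (π p) = ψ p := by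
      intro p
      exact RingHom.liftOfRightInverse_comp_apply π.toRingHom _ _ ⟨ψ, hker⟩ p
    refine ⟨K, hK, hNK, φ, ?_, h2, ?_, ?_⟩
    · intro z
      obtain ⟨p, hp⟩ := h1 z
      exact ⟨π p, by rw [hφπ, hp]⟩
    · intro i
      rw [← h3 i, ← hφπ, AlgHom.commutes]
    · have h5 : truncated T F u (fun j i => lift (y j i)) x K ψ =
          truncated T F u y x K φ := by
        unfold truncated
        have h6 : ∀ j i, ψ (lift (y j i)) = φ (y j i) := by
          intro j i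
          rw [← hφπ, hlift]
        simp only [h6]
      rw [← h5]
      exact h4

/-- the index set of all exceptional sets -/
abbrev Idx (n : ℕ) : Type :=
  (Σ r : ℕ, Finset (Pr n r) × (Σ q : ℕ, (Fin q → MvPolynomial (Fin (n + 1)) ℤ) ×
    (Σ u : Fin q → ℕ, ∀ j, Fin (u j) → Pr n r))) ×
  (ℕ × Finset ℕ × MvPolynomial (Fin (n + 1)) ℤ × ℕ × Finset ℕ) ×
  (Σ t : ℕ, (Fin t → MvPolynomial (Fin (n + 1)) ℤ) × (Fin t → MvPolynomial (Fin (n + 1)) ℤ) ×
    (Fin t → ℕ) × (Fin t → ℕ)) × ℕ × ℚ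

theorem countable_mv (k : ℕ) (R : Type) [CommRing R] [Countable R] :
    Countable (MvPolynomial (Fin k) R) := by
  have h := MvPolynomial.cardinalMk_le_max (σ := Fin k) (R := R)
  rw [← Cardinal.mk_le_aleph0_iff]
  refine h.trans ?_
  simp

instance (n : ℕ) : Countable (Idx n) := by
  have h1 : Countable (MvPolynomial (Fin (n + 1)) ℤ) := countable_mv _ _
  have h2 : Countable (MvPolynomial (Fin (n + 1)) ℚ) := countable_mv _ _
  have h3 : ∀ r, Countable (Pr n r) := fun r => countable_mv _ _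
  unfold Idx
  infer_instance

/-- the exceptional set with a given index -/
def exc {n : ℕ} (i : Idx n) : Set (Fin (n + 1) → ℤ) :=
  Coded i.1.2.1 i.2.1.1 i.2.1.2.1 i.1.2.2.2.1 i.1.2.2.2.2.1 i.1.2.2.2.2.2 i.2.1.2.2.1 i.2.1.2.2.2.1
    i.2.1.2.2.2.2 i.2.2.1.2.1 i.2.2.1.2.2.1 i.2.2.1.2.2.2.1 i.2.2.1.2.2.2.2 (i.2.2.2.1 : ℝ)
    (i.2.2.2.2 : ℝ)

theorem exists_idx {n q t : ℕ} {A : Type} [CommRing A]
    [Algebra (MvPolynomial (Fin (n + 1)) ℚ) A] [Module.Finite (MvPolynomial (Fin (n + 1)) ℚ) A]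
    (N : ℕ) (T : Finset ℕ) (F : Fin q → MvPolynomial (Fin (n + 1)) ℤ) (u : Fin q → ℕ)
    (y : ∀ j, Fin (u j) → A) (G : MvPolynomial (Fin (n + 1)) ℤ) (d : ℕ) (S : Finset ℕ)
    (F' G' : Fin t → MvPolynomial (Fin (n + 1)) ℤ) (k' e' : Fin t → ℕ) (Λ : ℕ) (κ : ℚ) :
    ∃ i : Idx n, Violators N T F u y G d S F' G' k' e' (Λ : ℝ) (κ : ℝ) = exc i := by
  obtain ⟨r, gens, y', h⟩ := exists_coded N T F u y G d S F' G' k' e' (Λ : ℝ) (κ : ℝ)
  exact ⟨(⟨r, gens, q, F, u, y'⟩, (N, T, G, d, S), ⟨t, F', G', k', e'⟩, Λ, κ), h⟩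

end Pool.Agent.K1H84.TV
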