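import Pool.Agent.K1H84.TV.Code
import Pool.Agent.R479.DA.Lim

set_option autoImplicit false

/-! The exceptional sets near typical points. -/

namespace Pool.Agent.K1H84.TV

open MvPolynomial NumberField IsDedekindDomain Filter MeasureTheory
open Pool.Agent.Results.MP_44a246_nt.CoversOfProjectiveSpace
open scoped ENNReal

/-- a set with a power-saving number of elements -/
def Few {n : ℕ} (X : Set (Fin (n + 1) → ℤ)) : Prop :=
  ∃ c C : ℝ, 0 < c ∧ c ≤ 1 / 2 ∧ ∀ B : ℝ, 1 ≤ B →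
    {x | x ∈ X ∧ 1 ≤ ht x ∧ (ht x : ℝ) ≤ B}.Finite ∧
    (({x | x ∈ X ∧ 1 ≤ ht x ∧ (ht x : ℝ) ≤ B}.ncard : ℕ) : ℝ) ≤ C * B ^ ((n : ℝ) + 1 - c)

theorem box_count {n : ℕ} {Y : ℝ} (hY : 1 ≤ Y) :
    {x : Fin (n + 1) → ℤ | (ht x : ℝ) ≤ Y}.Finite ∧
    (({x : Fin (n + 1) → ℤ | (ht x : ℝ) ≤ Y}.ncard : ℕ) : ℝ) ≤ (3 * Y) ^ (n + 1) := by
  classical
  set b : ℕ := ⌊Y⌋₊ with hb
  have hbY : (b : ℝ) ≤ Y := Nat.floor_le (by linarith)
  set P : Finset (Fin (n + 1) → ℤ) := Fintype.piFinset fun _ => Finset.Icc (-(b : ℤ)) b with hP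
  have hsub : {x : Fin (n + 1) → ℤ | (ht x : ℝ) ≤ Y} ⊆ (P : Set (Fin (n + 1) → ℤ)) := by
    intro x hx
    have h1 : ht x ≤ b := Nat.le_floor hx
    rw [Finset.mem_coe, hP, Fintype.mem_piFinset]
    intro i
    have h2 : (x i).natAbs ≤ b :=
      (Finset.le_sup (f := fun i => (x i).natAbs) (Finset.mem_univ i)).trans h1
    rw [Finset.mem_Icc]
    omega
  refine ⟨P.finite_toSet.subset hsub, ?_⟩
  have h3 : ({x : Fin (n + 1) → ℤ | (ht x : ℝ) ≤ Y}.ncard : ℕ) ≤ P.card := by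
    have := Set.ncard_le_ncard hsub P.finite_toSet
    rwa [Set.ncard_coe_finset] at this
  have h4 : P.card = (2 * b + 1) ^ (n + 1) := by
    rw [hP, Fintype.card_piFinset, Finset.prod_const, Finset.card_univ, Fintype.card_fin, Int.card_Icc]
    congr 1
    omega
  have h5 : (({x : Fin (n + 1) → ℤ | (ht x : ℝ) ≤ Y}.ncard : ℕ) : ℝ) ≤ ((2 * b + 1 : ℕ) : ℝ) ^ (n + 1) := by
    rw [h4] at h3
    exact_mod_cast h3
  refine h5.trans (pow_le_pow_left₀ (by positivity) ?_ _)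
  push_cast
  linarith

/-- **The violators are few.** -/
theorem few_violators {n : ℕ} {A : Type} [CommRing A] [IsDomain A] [IsIntegrallyClosed A]
    [Algebra (MvPolynomial (Fin (n + 1)) ℚ) A] [FaithfulSMul (MvPolynomial (Fin (n + 1)) ℚ) A]
    [Module.Finite (MvPolynomial (Fin (n + 1)) ℚ) A]
    (N : ℕ) (hN : Module.finrank (MvPolynomial (Fin (n + 1)) ℚ) A = N)
    (q : ℕ) (F : Fin q → MvPolynomial (Fin (n + 1)) ℤ) (k : Fin q → ℕ)
    (hhom : ∀ j, (F j).IsHomogeneous (k j))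
    (hirr : ∀ j, Irreducible (map (Int.castRingHom ℚ) (F j)))
    (hdist : ∀ i j, i ≠ j →
      ¬ Associated (map (Int.castRingHom ℚ) (F i)) (map (Int.castRingHom ℚ) (F j)))
    (u : Fin q → ℕ) (y : ∀ j, Fin (u j) → A) (E : Fin q → Ideal A) (s : Fin q → ℕ)
    (hFE : ∀ j, algebraMap (MvPolynomial (Fin (n + 1)) ℚ) A (map (Int.castRingHom ℚ) (F j)) ∈ E j)
    (hyE : ∀ j i, ∀ e ∈ E j, y j i * e ∈ (Ideal.span
      {algebraMap (MvPolynomial (Fin (n + 1)) ℚ) A (map (Int.castRingHom ℚ) (F j))}).radical)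
    (hsN : ∀ j, s j ≤ N) (hs : ∀ j, SheetsLE (E j) (map (Int.castRingHom ℚ) (F j)) (s j))
    (m : Fin q → ℕ)
    (hm : ∀ j, (m j = k j ∧ (k j ≤ 2 ∨ FewCoincidences (F j) (k j))) ∨
      (E j = ⊤ ∧ (m j ≤ 1 ∨ (m j ≤ k j ∧ k j ≤ 2) ∨ FewCoincidences (F j) (m j))))
    (G : MvPolynomial (Fin (n + 1)) ℤ) (d : ℕ) (hG : G.IsHomogeneous d) (hG0 : G ≠ 0)
    (S T : Finset ℕ) (hS : ∀ p ∈ S, p.Prime) (hT : ∀ p ∈ T, p.Prime)
    (t : ℕ) (F' G' : Fin t → MvPolynomial (Fin (n + 1)) ℤ) (k' e' : Fin t → ℕ)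
    (hhom' : ∀ l, (F' l).IsHomogeneous (k' l) ∧ (G' l).IsHomogeneous (e' l))
    (hirr' : ∀ l, Irreducible (map (Int.castRingHom ℚ) (F' l)))
    (hcop' : ∀ l, ¬ map (Int.castRingHom ℚ) (F' l) ∣ map (Int.castRingHom ℚ) (G' l))
    (Λ : ℝ) (hΛ : 0 ≤ Λ)
    (κ : ℝ) (hκ : κ < ∑ j, (m j : ℝ) * (1 - (s j : ℝ) / N)) :
    Few (Violators N T F u y G d S F' G' k' e' Λ κ) := by
  set κ' : ℝ := (κ + ∑ j, (m j : ℝ) * (1 - (s j : ℝ) / N)) / 2 with hκ'
  have h1 : κ < κ' := by rw [hκ']; linarith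
  have h2 : κ' < ∑ j, (m j : ℝ) * (1 - (s j : ℝ) / N) := by rw [hκ']; linarith
  obtain ⟨c, hc, C, hC⟩ := Pool.Agent.Results.MP_44a246_nt.CoversOfProjectiveSpace.result n A N hN q F k
    hhom hirr hdist u y E s hFE hyE hsN hs m hm G d hG hG0 S T hS hT t F' G' k' e' hhom' hirr' hcop'
    Λ hΛ κ' h2
  set η : ℝ := min (1 / 2) ((κ' - κ) / (|κ| + 1)) with hη
  have hη0 : 0 < η := lt_min (by norm_num) (div_pos (by linarith) (by positivity))
  have hη1 : η ≤ 1 / 2 := min_le_left _ _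
  have hηκ : |κ| * η ≤ κ' - κ := by
    have h3 : η ≤ (κ' - κ) / (|κ| + 1) := min_le_right _ _
    rw [le_div_iff₀ (by positivity)] at h3
    nlinarith [abs_nonneg κ]
  set c' : ℝ := min (min c (1 / 2)) η with hc'
  have hc'0 : 0 < c' := lt_min (lt_min hc (by norm_num)) hη0
  have hc'1 : c' ≤ 1 / 2 := (min_le_left _ _).trans (min_le_right _ _)
  have hc'c : c' ≤ c := (min_le_left _ _).trans (min_le_left _ _)
  have hc'η : c' ≤ η := min_le_right _ _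
  refine ⟨c', |C| + 3 ^ (n + 1), hc'0, hc'1, fun B hB => ?_⟩
  set b : ℕ := ⌊B⌋₊ with hb
  have hb1 : 1 ≤ b := Nat.le_floor (by exact_mod_cast hB)
  have hb1R : (1 : ℝ) ≤ b := by exact_mod_cast hb1
  have hbB : (b : ℝ) ≤ B := Nat.floor_le (by linarith)
  have hlogb : 0 ≤ Real.log b := Real.log_nonneg hb1R
  set Y : ℝ := (b : ℝ) ^ (1 - η) with hY
  have hY1 : 1 ≤ Y := Real.one_le_rpow hb1R (by linarith)
  obtain ⟨hfin2, hcard2⟩ := box_count (n := n) hY1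
  obtain ⟨hfin0, -⟩ := box_count (n := n) hb1R
  set S1 : Set (Fin (n + 1) → ℤ) := {x | (∀ i, |x i| ≤ b) ∧
        ∃ (K : Type) (_ : Field K) (_ : NumberField K) (φ : A →+* K),
          Function.Surjective φ ∧ Module.finrank ℚ K = N ∧
          (∀ i, φ (algebraMap (MvPolynomial (Fin (n + 1)) ℚ) A (X i)) = x i) ∧
          truncated T F u y x K φ + logDisc K < κ' * Real.log b + proximity G d S x +
            Λ * ∑ l, idealHeight (F' l) (G' l) (k' l) (e' l) x} with hS1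
  have hS1fin : S1.Finite := by
    refine hfin0.subset ?_
    rintro x ⟨hx, -⟩
    show ((ht x : ℕ) : ℝ) ≤ b
    have h3 : ht x ≤ b := by
      unfold ht
      apply Finset.sup_le
      intro i _
      have := hx i
      zify
      exact this
    exact_mod_cast h3
  have hsub : {x | x ∈ Violators N T F u y G d S F' G' k' e' Λ κ ∧ 1 ≤ ht x ∧ (ht x : ℝ) ≤ B} ⊆
      S1 ∪ {x : Fin (n + 1) → ℤ | (ht x : ℝ) ≤ Y} := by
    rintro x ⟨⟨K, hK, hNK, φ, g1, g2, g3, g4⟩, hx1, hxB⟩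
    by_cases hxY : (ht x : ℝ) ≤ Y
    · exact Or.inr hxY
    left
    push Not at hxY
    have hxb : ht x ≤ b := Nat.le_floor hxB
    refine ⟨fun i => ?_, K, hK, hNK, φ, g1, g2, g3, lt_of_lt_of_le g4 ?_⟩
    · have h3 : (x i).natAbs ≤ b :=
        (Finset.le_sup (f := fun i => (x i).natAbs) (Finset.mem_univ i)).trans hxb
      zify at h3
      exact h3
    · have hxR : (1 : ℝ) ≤ ht x := by exact_mod_cast hx1
      have hlog1 : Real.log (ht x) ≤ Real.log b :=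
        Real.log_le_log (by linarith) (by exact_mod_cast hxb)
      have hlog2 : (1 - η) * Real.log b ≤ Real.log (ht x) := by
        have h3 := Real.log_le_log (by linarith) hxY.le
        rwa [hY, Real.log_rpow (by linarith)] at h3
      have hmain : κ * Real.log (ht x) ≤ κ' * Real.log b := by
        rcases le_or_gt 0 κ with hκ0 | hκ0
        · calc κ * Real.log (ht x) ≤ κ * Real.log b := mul_le_mul_of_nonneg_left hlog1 hκ0
            _ ≤ κ' * Real.log b := mul_le_mul_of_nonneg_right h1.le hlogb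
        · have h3 : κ * Real.log (ht x) ≤ κ * ((1 - η) * Real.log b) :=
            mul_le_mul_of_nonpos_left hlog2 hκ0.le
          have h4 : κ * ((1 - η) * Real.log b) = (κ + |κ| * η) * Real.log b := by
            rw [abs_of_neg hκ0]
            ring
          have h5 : (κ + |κ| * η) * Real.log b ≤ κ' * Real.log b :=
            mul_le_mul_of_nonneg_right (by linarith) hlogb
          linarith
      linarith
  have hfin : {x | x ∈ Violators N T F u y G d S F' G' k' e' Λ κ ∧ 1 ≤ ht x ∧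
      (ht x : ℝ) ≤ B}.Finite := (hS1fin.union hfin2).subset hsub
  refine ⟨hfin, ?_⟩
  have hcard : (({x | x ∈ Violators N T F u y G d S F' G' k' e' Λ κ ∧ 1 ≤ ht x ∧
      (ht x : ℝ) ≤ B}.ncard : ℕ) : ℝ) ≤
      (S1.ncard : ℝ) + ({x : Fin (n + 1) → ℤ | (ht x : ℝ) ≤ Y}.ncard : ℝ) := by
    have h3 := (Set.ncard_le_ncard hsub (hS1fin.union hfin2)).trans (Set.ncard_union_le _ _)
    exact_mod_cast h3
  have hB0 : 0 < B := by linarith
  have h3 : (S1.ncard : ℝ) ≤ |C| * B ^ ((n : ℝ) + 1 - c') := by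
    have h4 := hC b hb1
    refine h4.trans ?_
    have h5 : (b : ℝ) ^ ((n : ℝ) + 1 - c) ≤ B ^ ((n : ℝ) + 1 - c') :=
      calc (b : ℝ) ^ ((n : ℝ) + 1 - c) ≤ (b : ℝ) ^ ((n : ℝ) + 1 - c') :=
            Real.rpow_le_rpow_of_exponent_le hb1R (by linarith)
        _ ≤ B ^ ((n : ℝ) + 1 - c') := by
            have hn : (0 : ℝ) ≤ n := Nat.cast_nonneg n
            exact Real.rpow_le_rpow (by linarith) hbB (by linarith)
    exact mul_le_mul (le_abs_self C) h5 (by positivity) (abs_nonneg C)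
  have h4 : ({x : Fin (n + 1) → ℤ | (ht x : ℝ) ≤ Y}.ncard : ℝ) ≤
      3 ^ (n + 1) * B ^ ((n : ℝ) + 1 - c') := by
    refine hcard2.trans ?_
    rw [mul_pow]
    refine mul_le_mul_of_nonneg_left ?_ (by positivity)
    have hn : (0 : ℝ) ≤ n := Nat.cast_nonneg n
    calc Y ^ (n + 1) = (b : ℝ) ^ ((1 - η) * ((n : ℝ) + 1)) := by
          rw [hY, ← Real.rpow_natCast, ← Real.rpow_mul (by linarith)]
          push_cast
          rfl
      _ ≤ B ^ ((1 - η) * ((n : ℝ) + 1)) :=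
          Real.rpow_le_rpow (by linarith) hbB (mul_nonneg (by linarith) (by linarith))
      _ ≤ B ^ ((n : ℝ) + 1 - c') := Real.rpow_le_rpow_of_exponent_le hB (by nlinarith)
  linarith

theorem summ {n : ℕ} {X : Set (Fin (n + 1) → ℤ)} (hX : Few X) :
    ∃ p : ℝ, 0 < p ∧ p < n + 1 ∧
      Summable fun x : {x // x ∈ X ∧ 1 ≤ ht x} => (ht x.1 : ℝ) ^ (-p) := by
  obtain ⟨c, C, hc0, hc1, h⟩ := hX
  have hn : (0 : ℝ) ≤ n := Nat.cast_nonneg n
  refine ⟨(n : ℝ) + 1 - c / 2, by linarith, by linarith, ?_⟩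
  refine Pool.Agent.R479.DA.summable_heights (fun x : {x // x ∈ X ∧ 1 ≤ ht x} => (ht x.1 : ℝ))
    (fun x => by exact_mod_cast x.2.2) (s := (n : ℝ) + 1 - c) (C := C) (by linarith) (by linarith) ?_
  intro B hB
  obtain ⟨h1, h2⟩ := h B hB
  have hinj : Set.InjOn (Subtype.val : {x // x ∈ X ∧ 1 ≤ ht x} → (Fin (n + 1) → ℤ))
      {x | (ht x.1 : ℝ) ≤ B} := Subtype.val_injective.injOn
  have himg : (Subtype.val : {x // x ∈ X ∧ 1 ≤ ht x} → (Fin (n + 1) → ℤ)) ''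
      {x | (ht x.1 : ℝ) ≤ B} = {x | x ∈ X ∧ 1 ≤ ht x ∧ (ht x : ℝ) ≤ B} := by
    ext x
    constructor
    · rintro ⟨v, hv, rfl⟩
      exact ⟨v.2.1, v.2.2, hv⟩
    · rintro ⟨hx1, hx2, hx3⟩
      exact ⟨⟨x, hx1, hx2⟩, hx3, rfl⟩
  constructor
  · rw [← himg] at h1
    exact h1.of_finite_image hinj
  · rw [← himg, hinj.ncard_image] at h2
    exact h2

/-- the exceptional points of a metric space -/
theorem measure_exc {n : ℕ} {M : Type} [MetricSpace M] [MeasurableSpace M] [BorelSpace M]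
    (φ : (Fin (n + 1) → ℤ) → M) {X : Set (Fin (n + 1) → ℤ)} (hX : Few X) {s : ℝ} (hs : 0 < s) :
    ∃ η : ℝ, 0 < η ∧ ∀ c : ℕ, μH[s] {ξ : M | {x | x ∈ X ∧ 1 ≤ ht x ∧
      dist ξ (φ x) ≤ c * (ht x : ℝ) ^ (-(((n : ℝ) + 1) / s) + η)}.Infinite} = 0 := by
  obtain ⟨p, hp0, hp1, hsum⟩ := summ hX
  have hn : (0 : ℝ) < (n : ℝ) + 1 := by positivity
  set η : ℝ := ((n : ℝ) + 1 - p) / (2 * s) with hη
  have hη0 : 0 < η := div_pos (by linarith) (by positivity)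
  refine ⟨η, hη0, fun c => ?_⟩
  set σ : ℝ := ((n : ℝ) + 1) / s - η with hσ
  have hσs : σ * s = ((n : ℝ) + 1 + p) / 2 := by
    rw [hσ, hη]
    field_simp
    ring
  have hσ0 : 0 < σ := by
    by_contra h
    push Not at h
    have := mul_nonpos_of_nonpos_of_nonneg h hs.le
    linarith
  set r : ℝ := p / σ with hr
  have hr0 : 0 < r := by positivity
  have hrs : r < s := by
    rw [hr, div_lt_iff₀ hσ0]
    linarith [mul_comm σ s]
  have hσr : σ * r = p := by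
    rw [hr]
    field_simp
  have hexp : -(((n : ℝ) + 1) / s) + η = -σ := by
    rw [hσ]
    ring
  rw [hexp]
  set ι := {x // x ∈ X ∧ 1 ≤ ht x} with hι
  have hpos : ∀ x : ι, (0 : ℝ) < ht x.1 := fun x => by
    have := x.2.2
    exact_mod_cast this
  set U : ι → Set M := fun x => Metric.closedBall (φ x.1) ((c + 1 : ℝ) * (ht x.1 : ℝ) ^ (-σ)) with hU
  have h2 := Pool.Agent.R479.DB.dimH_limsup U (fun x => 2 * (c + 1 : ℝ) * (ht x.1 : ℝ) ^ (-σ))
    (fun x => by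
      have := hpos x
      positivity) (fun x => by
        rw [hU]
        simp only
        have h0 : 0 ≤ (c + 1 : ℝ) * (ht x.1 : ℝ) ^ (-σ) := by
          have := hpos x
          positivity
        refine Metric.ediam_le_of_forall_dist_le fun a ha b hb => ?_
        rw [Metric.mem_closedBall] at ha hb
        have := dist_triangle_right a b (φ x.1)
        linarith) hr0 (by
      refine (hsum.mul_left ((2 * (c + 1 : ℝ)) ^ r)).congr fun x => ?_
      rw [Real.mul_rpow (by positivity) (Real.rpow_nonneg (hpos x).le _),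
        ← Real.rpow_mul (hpos x).le]
      congr 2
      rw [← hσr]
      ring)
  have h3 : ((Real.toNNReal s : NNReal) : ℝ) = s := Real.coe_toNNReal s hs.le
  have h4 : μH[s] {ξ : M | {x : ι | ξ ∈ U x}.Infinite} = 0 := by
    rw [← h3]
    apply hausdorffMeasure_of_dimH_lt
    refine h2.trans_lt ?_
    have h5 : ((Real.toNNReal s : NNReal) : ℝ≥0∞) = ENNReal.ofReal s := rfl
    rw [h5]
    exact (ENNReal.ofReal_lt_ofReal_iff hs).2 hrs
  refine measure_mono_null ?_ h4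
  intro ξ hξ
  rw [Set.mem_ofPred_eq] at hξ ⊢
  intro hfin
  apply hξ
  refine (hfin.image Subtype.val).subset ?_
  rintro x ⟨hx1, hx2, hx3⟩
  refine ⟨⟨x, hx1, hx2⟩, ?_, rfl⟩
  show ξ ∈ Metric.closedBall (φ x) ((c + 1 : ℝ) * (ht x : ℝ) ^ (-σ))
  rw [Metric.mem_closedBall]
  have h0 : (0 : ℝ) ≤ (ht x : ℝ) ^ (-σ) := Real.rpow_nonneg (by positivity) _
  linarith [mul_le_mul_of_nonneg_right (show (c : ℝ) ≤ c + 1 by linarith) h0]

/-- **Typical points of a metric space**: one exceptional set for all the sets `exc i`. -/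
theorem typical {n : ℕ} {M : Type} [MetricSpace M] [MeasurableSpace M] [BorelSpace M]
    (φ : (Fin (n + 1) → ℤ) → M) {s : ℝ} (hs : 0 < s) :
    ∃ E : Set M, μH[s] E = 0 ∧ ∀ i : Idx n, Few (exc i) → ∃ η : ℝ, 0 < η ∧
      ∀ ξ : M, ξ ∉ E → ∀ c : ℝ,
        {x | x ∈ exc i ∧ 1 ≤ ht x ∧
          dist ξ (φ x) ≤ c * (ht x : ℝ) ^ (-(((n : ℝ) + 1) / s) + η)}.Finite := by
  have key : ∀ i : {i : Idx n // Few (exc i)}, ∃ η : ℝ, 0 < η ∧ ∀ c : ℕ,
      μH[s] {ξ : M | {x | x ∈ exc i.1 ∧ 1 ≤ ht x ∧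
      dist ξ (φ x) ≤ c * (ht x : ℝ) ^ (-(((n : ℝ) + 1) / s) + η)}.Infinite} = 0 :=
    fun i => measure_exc φ i.2 hs
  choose η hη0 hη using key
  refine ⟨⋃ i : {i : Idx n // Few (exc i)}, ⋃ c : ℕ, {ξ : M | {x | x ∈ exc i.1 ∧ 1 ≤ ht x ∧
    dist ξ (φ x) ≤ c * (ht x : ℝ) ^ (-(((n : ℝ) + 1) / s) + η i)}.Infinite}, ?_, ?_⟩
  · rw [measure_iUnion_null_iff]
    intro i
    rw [measure_iUnion_null_iff]
    intro c
    exact hη i c
  · intro i hi
    refine ⟨η ⟨i, hi⟩, hη0 _, fun ξ hξ c => ?_⟩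
    obtain ⟨C, hC⟩ := exists_nat_ge c
    have h1 : {x | x ∈ exc i ∧ 1 ≤ ht x ∧
        dist ξ (φ x) ≤ C * (ht x : ℝ) ^ (-(((n : ℝ) + 1) / s) + η ⟨i, hi⟩)}.Finite := by
      by_contra h
      exact hξ (Set.mem_iUnion₂.2 ⟨⟨i, hi⟩, C, h⟩)
    refine h1.subset ?_
    rintro x ⟨hx1, hx2, hx3⟩
    exact ⟨hx1, hx2, hx3.trans (mul_le_mul_of_nonneg_right hC (by positivity))⟩

end Pool.Agent.K1H84.TV
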